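import Mathlib

/-!
# MP_c7af3c_ag, project SHARP: extension of independent families inside a spanning family
-/

set_option autoImplicit false

namespace Pool.Agent.Sharp.H87

open Module

/-- Module EXT. -/
theorem ext {L V ι κ : Type} [Field L] [AddCommGroup V] [Module L V] [FiniteDimensional L V]
    (B : ι → V) (hB : LinearIndependent L B) (g : κ → V) :
    ∃ (b : ℕ) (f : Fin b → κ), LinearIndependent L (Sum.elim B (g ∘ f)) ∧
      Submodule.span L (Set.range (Sum.elim B (g ∘ f))) =
        Submodule.span L (Set.range B) ⊔ Submodule.span L (Set.range g) := by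
  classical
  set M' : Submodule L V := Submodule.span L (Set.range B) with hM'
  obtain ⟨κ', a, -, hsp, hli⟩ := exists_linearIndependent' L (M'.mkQ ∘ g)
  have hfin : Finite κ' := hli.finite
  obtain ⟨b, ⟨e⟩⟩ := Finite.exists_equiv_fin κ'
  have hB' : LinearIndependent L (fun i => (⟨B i, Submodule.subset_span ⟨i, rfl⟩⟩ : M')) := by
    apply LinearIndependent.of_comp M'.subtype
    exact hB
  have hli2 : LinearIndependent L (Submodule.Quotient.mk (p := M') ∘ (g ∘ (a ∘ e.symm))) := by
    exact hli.comp _ e.symm.injective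
  refine ⟨b, a ∘ e.symm, LinearIndependent.sumElim_of_quotient hB' _ hli2, ?_⟩
  rw [Set.Sum.elim_range, Submodule.span_union, ← hM']
  refine le_antisymm (sup_le_sup_left (Submodule.span_mono ?_) _) (sup_le le_sup_left ?_)
  · rintro _ ⟨i, rfl⟩
    exact ⟨_, rfl⟩
  · rw [Submodule.span_le]
    rintro _ ⟨k, rfl⟩
    have h1 : M'.mkQ (g k) ∈ Submodule.span L (Set.range ((M'.mkQ ∘ g) ∘ a)) := by
      rw [hsp]
      exact Submodule.subset_span ⟨k, rfl⟩
    have h2 : Set.range ((M'.mkQ ∘ g) ∘ a) = M'.mkQ '' Set.range (g ∘ a) := by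
      rw [← Set.range_comp]
      rfl
    rw [h2, ← Submodule.map_span] at h1
    obtain ⟨v, hv, hv'⟩ := h1
    have h3 : g k - v ∈ M' := by
      rw [← Submodule.ker_mkQ M', LinearMap.mem_ker, map_sub, hv', sub_self]
    have h4 : Submodule.span L (Set.range (g ∘ a)) ≤
        Submodule.span L (Set.range (g ∘ (a ∘ e.symm))) := by
      refine Submodule.span_mono ?_
      rintro _ ⟨i, rfl⟩
      exact ⟨e i, by simp⟩
    have h5 : g k = (g k - v) + v := by abel
    rw [h5]
    exact Submodule.add_mem_sup h3 (h4 hv)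

end Pool.Agent.Sharp.H87
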