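import Pool.Agent.Lib.MP_c7af3c_ag.SHARP.H26.Pair
import Pool.Agent.Lib.MP_c7af3c_ag.SHARP.H87.Ext
import Pool.Agent.Lib.MP_c7af3c_ag.GEN.H26.Lin

/-!
# MP_c7af3c_ag, project SHARP: the joint kernel is spanned by `x`, the `W` and the `V(A l_i)`
-/

set_option autoImplicit false

namespace Pool.Agent.Sharp.H87

open MvPolynomial Pool.Agent.Gen Pool.Agent.Sharp

/-- the monomials of degrees `d m - 1` -/
abbrev Al (n : ℕ) {c : ℕ} (d : Fin c → ℕ) : Type :=
  {a : Fin c × (Fin (n + 1) →₀ ℕ) // a.2.degree + 1 = d a.1}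

section
variable {L : Type} [Field L] {n c : ℕ} {d : Fin c → ℕ}

/-- the tuple with one monomial -/
noncomputable def monoT (L : Type) [Field L] {n c : ℕ} {d : Fin c → ℕ} (a : Al n d) :
    Fin c → MvPolynomial (Fin (n + 1)) L :=
  Pi.single a.1.1 (monomial a.1.2 1)

theorem coeff_monoT (a : Al n d) (m : Fin c) (I : Fin (n + 1) →₀ ℕ) :
    coeff I (monoT L a m) = if a.1.1 = m ∧ a.1.2 = I then 1 else 0 := by
  classical
  unfold monoT
  by_cases h : a.1.1 = m
  · subst h
    rw [Pi.single_eq_same, coeff_monomial]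
    by_cases h2 : a.1.2 = I
    · rw [if_pos h2, if_pos ⟨rfl, h2⟩]
    · rw [if_neg h2, if_neg fun h3 => h2 h3.2]
  · rw [Pi.single_eq_of_ne (Ne.symm h), coeff_zero, if_neg fun h3 => h h3.1]

theorem adm_monoT (a : Al n d) : Adm d (monoT L a) := by
  intro m I h
  rw [coeff_monoT] at h
  by_cases h1 : a.1.1 = m ∧ a.1.2 = I
  · obtain ⟨rfl, rfl⟩ := h1
    exact a.2
  · rw [if_neg h1] at h
    exact absurd rfl h

theorem mulT_add_left (A A' : Fin c → MvPolynomial (Fin (n + 1)) L)
    (l : MvPolynomial (Fin (n + 1)) L) : mulT (A + A') l = mulT A l + mulT A' l := by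
  funext m
  simp only [mulT, Pi.add_apply, add_mul]

theorem mulT_smul_left (a : L) (A : Fin c → MvPolynomial (Fin (n + 1)) L)
    (l : MvPolynomial (Fin (n + 1)) L) : mulT (a • A) l = a • mulT A l := by
  funext m
  simp only [mulT, Pi.smul_apply, smul_mul_assoc]

variable (D : DSys L n c d) (x : Fin (n + 1) → L)

/-- the joint kernel of the functionals `F'_m(x)` -/
noncomputable def Kr : Submodule L (Fin (n + 1) → L) where
  carrier := {u | ∀ m, ∑ p, eval x (pderiv p (D.F m)) * u p = 0}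
  zero_mem' := fun m => by simp
  add_mem' := fun {a b} ha hb m => by
    simp only [Pi.add_apply, mul_add, Finset.sum_add_distrib, ha m, hb m, add_zero]
  smul_mem' := fun a u hu m => by
    have h : ∀ p, eval x (pderiv p (D.F m)) * (a • u) p =
        a * (eval x (pderiv p (D.F m)) * u p) := fun p => by
      rw [Pi.smul_apply, smul_eq_mul]; ring
    rw [Finset.sum_congr rfl fun p _ => h p, ← Finset.mul_sum, hu m, mul_zero]

theorem mem_Kr {u : Fin (n + 1) → L} :
    u ∈ Kr D x ↔ ∀ m, ∑ p, eval x (pderiv p (D.F m)) * u p = 0 := Iff.rfl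

/-- `x` and the `W(p,q)` -/
noncomputable def gW : Unit ⊕ (Fin (n + 1) × Fin (n + 1)) → (Fin (n + 1) → L) :=
  Sum.elim (fun _ => x) fun a => WT D x a.1 a.2

/-- their span -/
noncomputable def T0 : Submodule L (Fin (n + 1) → L) := Submodule.span L (Set.range (gW D x))

/-- the vectors `V(A l_i)` -/
noncomputable def gV (j0 : Fin (n + 1)) (a : Al n d × Fin (n + 1)) : Fin (n + 1) → L :=
  VT D x (mulT (monoT L a.1) (lf x j0 a.2))

theorem VT_monoT (a : Al n d) (l : MvPolynomial (Fin (n + 1)) L) :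
    VT D x (mulT (monoT L a) l) = D.V x a.1.1 (l * monomial a.1.2 1) := by
  rw [VT_apply, Finset.sum_eq_single a.1.1]
  · unfold mulT monoT
    rw [Pi.single_eq_same, mul_comm]
  · intro m _ hm
    unfold mulT monoT
    rw [Pi.single_eq_of_ne hm, zero_mul, map_zero]
  · intro h; exact absurd (Finset.mem_univ _) h

variable {D x}

theorem T0_le (h0 : ∀ m, eval x (D.F m) = 0) : T0 D x ≤ Kr D x := by
  unfold T0
  rw [Submodule.span_le]
  rintro _ ⟨_ | a, rfl⟩
  · exact grad_x D x h0
  · exact grad_WT D x h0 a.1 a.2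

theorem VT_mem_Kr (h0 : ∀ m, eval x (D.F m) = 0) {A : Fin c → MvPolynomial (Fin (n + 1)) L}
    (hA : Adm d A) {l : MvPolynomial (Fin (n + 1)) L} (hl : l.IsHomogeneous 1)
    (hlx : eval x l = 0) : VT D x (mulT A l) ∈ Kr D x := grad_mulT D x h0 hA hl hlx

theorem gV_mem {j0 : Fin (n + 1)} (hj0 : x j0 = 1) (h0 : ∀ m, eval x (D.F m) = 0)
    (a : Al n d × Fin (n + 1)) : gV D x j0 a ∈ Kr D x :=
  VT_mem_Kr h0 (adm_monoT a.1) (hom_lf x j0 a.2) (eval_lf x hj0 a.2)

/-- Module KER. -/
theorem ker_eq {j0 : Fin (n + 1)} (hj0 : x j0 = 1) (h0 : ∀ m, eval x (D.F m) = 0) :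
    Kr D x = T0 D x ⊔ Submodule.span L (Set.range (gV D x j0)) := by
  have hx : x ≠ 0 := fun h0 => by rw [h0] at hj0; exact zero_ne_one hj0
  refine le_antisymm ?_ (sup_le (T0_le h0) (Submodule.span_le.2 ?_))
  · let S := D.toSys Pool.Agent.Gen.H12.reln x hx h0
    intro u hu
    have h1 : u ∈ Gen.H26.TT S := by
      rw [Gen.H26.TT_eq, LinearMap.mem_ker]
      funext m
      exact hu m
    refine (Submodule.span_le.2 ?_ : Gen.H26.TT S ≤ _) h1
    rintro _ ⟨C, ⟨hok, hU⟩, rfl⟩
    cases C with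
    | pt => exact Submodule.mem_sup_left (Submodule.subset_span ⟨Sum.inl (), rfl⟩)
    | W p q =>
      refine Submodule.mem_sup_left (Submodule.subset_span ⟨Sum.inr (p, q), ?_⟩)
      change WT D x p q = x q • Pi.single p 1 + ∑ m, D.V x m (X q * pderiv p (D.F m))
      unfold WT
      rw [VT_apply]
    | U m => exact absurd rfl (hU m)
    | Z m i j I =>
      refine Submodule.mem_sup_right ?_
      change x j • D.V x m (X i * monomial I 1) - x i • D.V x m (X j * monomial I 1) ∈ _
      let a : Al n d := ⟨(m, I), hok⟩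
      have e1 : x j • D.V x m (X i * monomial I 1) - x i • D.V x m (X j * monomial I 1) =
          x j • gV D x j0 (a, i) - x i • gV D x j0 (a, j) := by
        unfold gV
        rw [VT_monoT, VT_monoT]
        change _ = x j • D.V x m (lf x j0 i * monomial I 1) -
          x i • D.V x m (lf x j0 j * monomial I 1)
        rw [← map_smul, ← map_smul, ← map_sub, ← map_smul, ← map_smul, ← map_sub]
        congr 1
        unfold lf
        simp only [smul_eq_C_mul]
        ring
      rw [e1]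
      exact Submodule.sub_mem _ (Submodule.smul_mem _ _ (Submodule.subset_span ⟨_, rfl⟩))
        (Submodule.smul_mem _ _ (Submodule.subset_span ⟨_, rfl⟩))
  · rintro _ ⟨a, rfl⟩
    exact gV_mem hj0 h0 a

theorem finrank_Kr {j0 : Fin (n + 1)} (hj0 : x j0 = 1) (h0 : ∀ m, eval x (D.F m) = 0) :
    Module.finrank L (Kr D x) + c = n + 1 := by
  have hx : x ≠ 0 := fun h0 => by rw [h0] at hj0; exact zero_ne_one hj0
  let S := D.toSys Pool.Agent.Gen.H12.reln x hx h0
  have h1 : Kr D x = Gen.H26.TT S := by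
    rw [Gen.H26.TT_eq]
    ext u
    rw [LinearMap.mem_ker]
    exact ⟨fun hu => funext fun m => hu m, fun hu m => congrFun hu m⟩
  rw [h1]
  exact Gen.H26.finrank_TT S

end

end Pool.Agent.Sharp.H87
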