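import Pool.Agent.Lib.MP_c7af3c_ag.SHARP.H87.Ker
import Pool.Agent.Lib.MP_c7af3c_ag.SHARP.H26.LineH
import Pool.Agent.Lib.MP_c7af3c_ag.SHARP.H54.Root

/-!
# MP_c7af3c_ag, project SHARP: the forms vanishing on a line
-/

set_option autoImplicit false

namespace Pool.Agent.Sharp.H87

open MvPolynomial Pool.Agent.Gen Pool.Agent.Sharp

section
variable {L : Type} [Field L] {n : ℕ} (x y : Fin (n + 1) → L) (j0 i0 : Fin (n + 1))

/-- the linear forms vanishing at `x` and `y` (for `y j0 = 0`, `y i0 ≠ 0`) -/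
noncomputable def hh (k : Fin (n + 1)) : MvPolynomial (Fin (n + 1)) L :=
  lf x j0 k - C (y k / y i0) * lf x j0 i0

/-- the substitution -/
noncomputable def sb : MvPolynomial (Fin (n + 1)) L →ₐ[L] MvPolynomial (Fin (n + 1)) L :=
  aeval fun k => X j0 * C (x k) + C (y k / y i0) * lf x j0 i0

/-- the span of the products `X^I h_k` -/
noncomputable def JJ (e : ℕ) : Submodule L (MvPolynomial (Fin (n + 1)) L) :=
  Submodule.span L {P | ∃ I : Fin (n + 1) →₀ ℕ, I.degree + 1 = e ∧ ∃ k,
    P = hh x y j0 i0 k * monomial I 1}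

theorem X_sub_sb (k : Fin (n + 1)) : X k - sb x y j0 i0 (X k) = hh x y j0 i0 k := by
  unfold sb hh
  rw [aeval_X]
  have h : lf x j0 k = X k - X j0 * C (x k) := by
    unfold lf
    ring
  rw [h]
  ring

theorem JJ_mul_X {e : ℕ} {P : MvPolynomial (Fin (n + 1)) L} (hP : P ∈ JJ x y j0 i0 e)
    (j : Fin (n + 1)) : X j * P ∈ JJ x y j0 i0 (e + 1) := by
  unfold JJ at hP ⊢
  induction hP using Submodule.span_induction with
  | mem P hP =>
    obtain ⟨I, hI, k, rfl⟩ := hP
    refine Submodule.subset_span ⟨Finsupp.single j 1 + I, ?_, k, ?_⟩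
    · rw [map_add, Finsupp.degree_single]
      omega
    · have h : (monomial (Finsupp.single j 1 + I) 1 : MvPolynomial (Fin (n + 1)) L) =
          X j * monomial I 1 := by
        rw [X, monomial_mul, one_mul]
      rw [h]
      ring
  | zero => rw [mul_zero]; exact Submodule.zero_mem _
  | add P Q _ _ h1 h2 => rw [mul_add]; exact Submodule.add_mem _ h1 h2
  | smul a P _ h1 => rw [mul_smul_comm]; exact Submodule.smul_mem _ _ h1

theorem JJ_mul_C {e : ℕ} {P : MvPolynomial (Fin (n + 1)) L} (hP : P ∈ JJ x y j0 i0 e)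
    (a : L) : C a * P ∈ JJ x y j0 i0 e := by
  rw [← smul_eq_C_mul]
  exact Submodule.smul_mem _ _ hP

theorem sb_mono (s : Multiset (Fin (n + 1))) :
    (s.map X).prod - sb x y j0 i0 (s.map X).prod ∈ JJ x y j0 i0 s.card := by
  induction s using Multiset.induction_on with
  | empty => simp
  | cons i s ih =>
    rw [Multiset.map_cons, Multiset.prod_cons, Multiset.card_cons, map_mul]
    set P : MvPolynomial (Fin (n + 1)) L := (s.map X).prod with hP
    have e1 : X i * P - sb x y j0 i0 (X i) * sb x y j0 i0 P =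
        hh x y j0 i0 i * P + sb x y j0 i0 (X i) * (P - sb x y j0 i0 P) := by
      rw [← X_sub_sb]
      ring
    rw [e1]
    refine Submodule.add_mem _ ?_ ?_
    · refine Submodule.subset_span ⟨Multiset.toFinsupp s, ?_, i, ?_⟩
      · rw [Gen.H26.degree_toFinsupp]
      · rw [hP, Gen.H26.prod_map_X]
    · have e2 : sb x y j0 i0 (X i) * (P - sb x y j0 i0 P) =
          C (x i) * (X j0 * (P - sb x y j0 i0 P)) +
          (C (y i / y i0) * (X i0 * (P - sb x y j0 i0 P)) -
            C (y i / y i0 * x i0) * (X j0 * (P - sb x y j0 i0 P))) := by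
        unfold sb
        rw [aeval_X]
        unfold lf
        rw [C_mul]
        ring
      rw [e2]
      exact Submodule.add_mem _ (JJ_mul_C _ _ _ _ (JJ_mul_X _ _ _ _ ih _) _)
        (Submodule.sub_mem _ (JJ_mul_C _ _ _ _ (JJ_mul_X _ _ _ _ ih _) _)
          (JJ_mul_C _ _ _ _ (JJ_mul_X _ _ _ _ ih _) _))

theorem sb_hom {e : ℕ} {G : MvPolynomial (Fin (n + 1)) L} (hG : G.IsHomogeneous e) :
    G - sb x y j0 i0 G ∈ JJ x y j0 i0 e := by
  have h : G - sb x y j0 i0 G = ∑ I ∈ G.support, coeff I G •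
      ((monomial I 1 : MvPolynomial (Fin (n + 1)) L) - sb x y j0 i0 (monomial I 1)) := by
    conv_lhs => rw [G.as_sum, map_sum, ← Finset.sum_sub_distrib]
    refine Finset.sum_congr rfl fun I _ => ?_
    have h1 : (monomial I (coeff I G) : MvPolynomial (Fin (n + 1)) L) =
        coeff I G • monomial I 1 := by rw [smul_monomial]; simp
    rw [h1, map_smul, smul_sub]
  rw [h]
  refine Submodule.sum_mem _ fun I hI => Submodule.smul_mem _ _ ?_
  have h2 : I.degree = e := by
    have := hG (mem_support_iff.1 hI)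
    rw [← this, Finsupp.degree_eq_weight_one]
    rfl
  have hc : (Finsupp.toMultiset I).card = e := by
    rw [← Gen.H26.degree_toFinsupp, Finsupp.toMultiset_toFinsupp, h2]
  have h3 := sb_mono x y j0 i0 (Finsupp.toMultiset I)
  rwa [Gen.H26.prod_map_X, Finsupp.toMultiset_toFinsupp, hc] at h3

theorem sb_zero [CharZero L] {e : ℕ} {G : MvPolynomial (Fin (n + 1)) L} (hG : G.IsHomogeneous e)
    (h : lineP G x y = 0) : sb x y j0 i0 G = 0 := by
  apply MvPolynomial.funext
  intro z
  rw [map_zero]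
  have h1 : eval z (sb x y j0 i0 G) =
      eval (fun k => z j0 * x k + (eval z (lf x j0 i0) / y i0) * y k) G := by
    unfold sb
    rw [aeval_def, ← coe_eval₂Hom, ← RingHom.comp_apply, comp_eval₂Hom, coe_eval₂Hom]
    rw [eval, coe_eval₂Hom]
    have h2 : ((eval₂Hom (RingHom.id L) z).comp (algebraMap L (MvPolynomial (Fin (n + 1)) L))) =
        RingHom.id L := by
      ext a
      simp
    have h3 : (fun i => (eval₂Hom (RingHom.id L) z) (X j0 * C (x i) +
        C (y i / y i0) * lf x j0 i0)) =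
        (fun k => z j0 * x k + (eval₂ (RingHom.id L) z (lf x j0 i0) / y i0) * y k) := by
      funext k
      simp only [map_add, map_mul, coe_eval₂Hom, eval₂_X, eval₂_C, RingHom.id_apply]
      ring
    simp only [coe_eval₂Hom] at h3
    rw [h2, h3]
    rfl
  rw [h1, H54.pair_form hG (γ := 0) (by rw [h, map_zero, zero_mul]), zero_mul]

/-- Module LINEI: a form vanishing on the line lies in the span of the products `X^I h_k`. -/
theorem lineI [CharZero L] {e : ℕ} {G : MvPolynomial (Fin (n + 1)) L} (hG : G.IsHomogeneous e)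
    (h : lineP G x y = 0) : G ∈ JJ x y j0 i0 e := by
  have h1 := sb_hom x y j0 i0 hG
  rwa [sb_zero x y j0 i0 hG h, sub_zero] at h1

end

end Pool.Agent.Sharp.H87
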